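import Pool.Agent.W852.MLS.Heat

/-!
# A family of birth and death chains
-/

namespace EntMLS
open Matrix Finset

/-- Unnormalised stationary weights. -/
noncomputable def wt (n j : ℕ) : ℝ := if j = 0 then 1 else (1 / 2) ^ (n + j)

/-- Conductance of the edge between `i` and `i + 1`. -/
noncomputable def kap (n i : ℕ) : ℝ := (1 / 2) ^ (n + 1) * (1 / 3) ^ (i + 1)

/-- Kronecker delta. -/
def dl {n : ℕ} (x y : Fin n) : ℝ := if x = y then 1 else 0

/-- The normalised Laplacian. -/
noncomputable def lap (n : ℕ) : Matrix (Fin (n + 1)) (Fin (n + 1)) ℝ := Matrix.of fun x y =>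
  (1 / wt n x) * ∑ i : Fin n, kap n i *
    ((dl x i.succ - dl x i.castSucc) * (dl y i.succ - dl y i.castSucc))

/-- The transition matrix. -/
noncomputable def PP (n : ℕ) : Matrix (Fin (n + 1)) (Fin (n + 1)) ℝ := 1 - lap n

/-- The normalising constant. -/
noncomputable def ZZ (n : ℕ) : ℝ := ∑ x : Fin (n + 1), wt n x

/-- The stationary law. -/
noncomputable def pv (n : ℕ) (x : Fin (n + 1)) : ℝ := wt n x / ZZ n

theorem wt_pos (n j : ℕ) : 0 < wt n j := by
  unfold wt; split_ifs <;> positivity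

theorem kap_pos (n i : ℕ) : 0 < kap n i := by unfold kap; positivity

theorem ZZ_pos (n : ℕ) : 0 < ZZ n :=
  Finset.sum_pos (fun x _ => wt_pos n x) ⟨0, Finset.mem_univ _⟩

theorem sum_succ' {n : ℕ} (φ : ℕ → ℝ) (x : Fin (n + 1)) :
    ∑ i : Fin n, φ i * dl x i.succ = if (x : ℕ) = 0 then 0 else φ (x - 1) := by
  refine Fin.cases ?_ (fun j => ?_) x
  · rw [if_pos (by simp)]
    refine Finset.sum_eq_zero fun i _ => ?_
    rw [dl, if_neg (Fin.succ_ne_zero i).symm, mul_zero]
  · rw [if_neg (by simp), Finset.sum_eq_single j]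
    · simp [dl]
    · intro i _ hi
      rw [dl, if_neg, mul_zero]
      intro h; exact hi (Fin.succ_injective _ h).symm
    · simp

theorem sum_cast' {n : ℕ} (φ : ℕ → ℝ) (x : Fin (n + 1)) :
    ∑ i : Fin n, φ i * dl x i.castSucc = if (x : ℕ) < n then φ x else 0 := by
  refine Fin.lastCases ?_ (fun j => ?_) x
  · rw [if_neg (by simp)]
    refine Finset.sum_eq_zero fun i _ => ?_
    rw [dl, if_neg (Fin.castSucc_lt_last i).ne', mul_zero]
  · rw [if_pos (by simp), Finset.sum_eq_single j]
    · simp [dl]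
    · intro i _ hi
      rw [dl, if_neg, mul_zero]
      intro h; exact hi (Fin.castSucc_injective _ h).symm
    · simp

theorem sum_dl {n : ℕ} (f : Fin n → ℝ) (a : Fin n) : ∑ y, dl y a * f y = f a := by
  rw [Finset.sum_eq_single a]
  · simp [dl]
  · intro b _ hb
    rw [dl, if_neg hb, zero_mul]
  · simp

theorem lap_mulVec0 {n : ℕ} (f : Fin (n + 1) → ℝ) (x : Fin (n + 1)) :
    (lap n).mulVec f x = (1 / wt n x) * ∑ i : Fin n, kap n i *
      ((dl x i.succ - dl x i.castSucc) * (f i.succ - f i.castSucc)) := by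
  simp only [lap, Matrix.mulVec, dotProduct, Matrix.of_apply]
  rw [Finset.mul_sum]
  have h1 : ∀ y : Fin (n + 1), ((1 / wt n x) * ∑ i : Fin n, kap n i *
      ((dl x i.succ - dl x i.castSucc) * (dl y i.succ - dl y i.castSucc))) * f y =
      ∑ i : Fin n, (1 / wt n x) * (kap n i * ((dl x i.succ - dl x i.castSucc) *
        (dl y i.succ * f y - dl y i.castSucc * f y))) := by
    intro y
    rw [mul_assoc, Finset.sum_mul, Finset.mul_sum]
    refine Finset.sum_congr rfl fun i _ => by ring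
  rw [Finset.sum_congr rfl fun y _ => h1 y, Finset.sum_comm]
  refine Finset.sum_congr rfl fun i _ => ?_
  rw [← Finset.mul_sum, ← Finset.mul_sum, ← Finset.mul_sum, Finset.sum_sub_distrib, sum_dl, sum_dl]

theorem lap_mulVec {n : ℕ} (F : ℕ → ℝ) (x : Fin (n + 1)) :
    (lap n).mulVec (fun y => F y) x = (1 / wt n x) *
      ((if (x : ℕ) = 0 then 0 else kap n (x - 1) * (F (x - 1 + 1) - F (x - 1))) -
        (if (x : ℕ) < n then kap n x * (F (x + 1) - F x) else 0)) := by
  rw [lap_mulVec0]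
  congr 1
  rw [← sum_succ' (fun i => kap n i * (F (i + 1) - F i)),
    ← sum_cast' (fun i => kap n i * (F (i + 1) - F i)), ← Finset.sum_sub_distrib]
  refine Finset.sum_congr rfl fun i _ => ?_
  simp only [Fin.val_succ, Fin.val_castSucc]
  ring

theorem dir_eq {n : ℕ} (f g : Fin (n + 1) → ℝ) :
    dir (PP n) (pv n) f g = (ZZ n)⁻¹ * ∑ i : Fin n, kap n i *
      ((f i.succ - f i.castSucc) * (g i.succ - g i.castSucc)) := by
  unfold dir PP
  rw [sub_sub_cancel]
  have h1 : ∀ x : Fin (n + 1), pv n x * ((lap n).mulVec f x * g x) =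
      ∑ i : Fin n, (ZZ n)⁻¹ * (kap n i * ((dl x i.succ * g x - dl x i.castSucc * g x) *
        (f i.succ - f i.castSucc))) := by
    intro x
    rw [lap_mulVec0, pv, Finset.mul_sum, Finset.sum_mul, Finset.mul_sum]
    refine Finset.sum_congr rfl fun i _ => ?_
    have := (wt_pos n x).ne'
    have := (ZZ_pos n).ne'
    field_simp
  rw [Finset.sum_congr rfl fun x _ => h1 x, Finset.sum_comm, Finset.mul_sum]
  refine Finset.sum_congr rfl fun i _ => ?_
  rw [← Finset.mul_sum, ← Finset.mul_sum, ← Finset.sum_mul, Finset.sum_sub_distrib, sum_dl, sum_dl]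
  ring

theorem PP_apply {n : ℕ} (x y : Fin (n + 1)) : PP n x y = dl x y - (1 / wt n x) *
    ∑ i : Fin n, kap n i *
      ((dl x i.succ - dl x i.castSucc) * (dl y i.succ - dl y i.castSucc)) := by
  simp only [PP, lap, Matrix.sub_apply, Matrix.of_apply, Matrix.one_apply, dl]

theorem PP_row {n : ℕ} (x : Fin (n + 1)) : ∑ y, PP n x y = 1 := by
  have h : (lap n).mulVec (fun _ => 1) x = 0 := by
    rw [lap_mulVec0]; simp
  have h2 : (PP n).mulVec (fun _ => 1) x = 1 := by
    rw [PP, Matrix.sub_mulVec, Matrix.one_mulVec]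
    simp only [Pi.sub_apply]
    rw [h]; simp
  simpa [Matrix.mulVec, dotProduct] using h2

theorem PP_off {n : ℕ} (x y : Fin (n + 1)) (h : x ≠ y) : 0 ≤ PP n x y := by
  rw [PP_apply, dl, if_neg h, zero_sub, neg_nonneg]
  refine mul_nonpos_of_nonneg_of_nonpos (by have := wt_pos n x; positivity) ?_
  refine Finset.sum_nonpos fun i _ => mul_nonpos_of_nonneg_of_nonpos (kap_pos n i).le ?_
  have hne : i.succ ≠ i.castSucc := (Fin.castSucc_lt_succ).ne'
  unfold dl
  by_cases h1 : x = i.succ
  · subst h1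
    rw [if_pos rfl, if_neg hne, if_neg h.symm]
    split_ifs <;> norm_num
  · by_cases h2 : x = i.castSucc
    · subst h2
      rw [if_neg h1, if_pos rfl, if_neg h.symm]
      split_ifs <;> norm_num
    · rw [if_neg h1, if_neg h2]; norm_num

theorem PP_diag {n : ℕ} (x : Fin (n + 1)) : 0 ≤ PP n x x := by
  rw [PP_apply, dl, if_pos rfl]
  have h1 : ∑ i : Fin n, kap n i *
      ((dl x i.succ - dl x i.castSucc) * (dl x i.succ - dl x i.castSucc)) ≤
      ∑ i : Fin n, (kap n i * dl x i.succ + kap n i * dl x i.castSucc) := by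
    refine Finset.sum_le_sum fun i _ => ?_
    rw [← mul_add]
    refine mul_le_mul_of_nonneg_left ?_ (kap_pos n i).le
    unfold dl
    split_ifs <;> norm_num
  rw [Finset.sum_add_distrib, sum_succ' (kap n), sum_cast' (kap n)] at h1
  have hw := wt_pos n x
  have h2 : (if (x : ℕ) = 0 then (0 : ℝ) else kap n (x - 1)) +
      (if (x : ℕ) < n then kap n x else 0) ≤ wt n x := by
    have hk : (if (x : ℕ) < n then kap n x else 0) ≤ kap n x := by
      split_ifs
      · exact le_rfl
      · exact (kap_pos n x).le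
    by_cases hx : (x : ℕ) = 0
    · rw [if_pos hx, wt, if_pos hx]
      have : kap n x ≤ 1 := by
        unfold kap
        exact mul_le_one₀ (pow_le_one₀ (by norm_num) (by norm_num)) (by positivity)
          (pow_le_one₀ (by norm_num) (by norm_num))
      linarith
    · rw [if_neg hx, wt, if_neg hx]
      obtain ⟨j, hj⟩ : ∃ j, (x : ℕ) = j + 1 := ⟨x - 1, by omega⟩
      rw [hj, Nat.add_sub_cancel]
      rw [hj] at hk
      have h3 : kap n j + kap n (j + 1) ≤ (1 / 2) ^ (n + (j + 1)) := by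
        unfold kap
        have e1 : ((1:ℝ) / 2) ^ (n + 1) * (1 / 3) ^ (j + 1) +
            (1 / 2) ^ (n + 1) * (1 / 3) ^ (j + 1 + 1) =
            (1 / 2) ^ (n + 1) * ((4 / 9) * (1 / 3) ^ j) := by ring
        have e2 : ((1:ℝ) / 2) ^ (n + (j + 1)) = (1 / 2) ^ (n + 1) * (1 / 2) ^ j := by ring
        rw [e1, e2]
        refine mul_le_mul_of_nonneg_left ?_ (by positivity)
        have : ((1:ℝ) / 3) ^ j ≤ (1 / 2) ^ j := pow_le_pow_left₀ (by norm_num) (by norm_num) j
        have h0 : (0:ℝ) ≤ (1 / 3) ^ j := by positivity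
        linarith
      linarith
  have h3 := h1.trans h2
  have h4 : 1 / wt n x * ∑ i : Fin n, kap n i *
      ((dl x i.succ - dl x i.castSucc) * (dl x i.succ - dl x i.castSucc)) ≤ 1 := by
    rw [one_div, inv_mul_le_iff₀ hw]; linarith
  linarith

theorem PP_nonneg {n : ℕ} (x y : Fin (n + 1)) : 0 ≤ PP n x y := by
  by_cases h : x = y
  · subst h; exact PP_diag x
  · exact PP_off x y h

theorem PP_rev {n : ℕ} (x y : Fin (n + 1)) : pv n x * PP n x y = pv n y * PP n y x := by
  rw [PP_apply, PP_apply, pv, pv, mul_sub, mul_sub]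
  have hx := (wt_pos n x).ne'
  have hy := (wt_pos n y).ne'
  have hZ := (ZZ_pos n).ne'
  have h1 : wt n x / ZZ n * dl x y = wt n y / ZZ n * dl y x := by
    unfold dl
    by_cases h : x = y
    · subst h; rfl
    · rw [if_neg h, if_neg (Ne.symm h)]; ring
  rw [h1]
  congr 1
  have e1 : wt n x / ZZ n * (1 / wt n x * ∑ i : Fin n, kap n i *
      ((dl x i.succ - dl x i.castSucc) * (dl y i.succ - dl y i.castSucc))) =
      (ZZ n)⁻¹ * ∑ i : Fin n, kap n i *
      ((dl x i.succ - dl x i.castSucc) * (dl y i.succ - dl y i.castSucc)) := by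
    field_simp
  have e2 : wt n y / ZZ n * (1 / wt n y * ∑ i : Fin n, kap n i *
      ((dl y i.succ - dl y i.castSucc) * (dl x i.succ - dl x i.castSucc))) =
      (ZZ n)⁻¹ * ∑ i : Fin n, kap n i *
      ((dl y i.succ - dl y i.castSucc) * (dl x i.succ - dl x i.castSucc)) := by
    field_simp
  rw [e1, e2]
  congr 1
  refine Finset.sum_congr rfl fun i _ => by ring

theorem PP_adj {n : ℕ} (i : Fin n) : 0 < PP n i.castSucc i.succ ∧ 0 < PP n i.succ i.castSucc := by
  have hne : i.succ ≠ i.castSucc := (Fin.castSucc_lt_succ).ne'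
  have key : ∑ j : Fin n, kap n j *
      ((dl i.succ j.succ - dl i.succ j.castSucc) * (dl i.castSucc j.succ - dl i.castSucc j.castSucc))
      < 0 := by
    refine Finset.sum_neg' (fun j _ => ?_) ⟨i, Finset.mem_univ _, ?_⟩
    · refine mul_nonpos_of_nonneg_of_nonpos (kap_pos n j).le ?_
      unfold dl
      have hnj : j.succ ≠ j.castSucc := (Fin.castSucc_lt_succ).ne'
      by_cases h1 : i.succ = j.succ
      · have h2 : i.castSucc ≠ j.succ := fun h => hne (h1.trans h.symm)
        rw [if_pos h1, if_neg h2, if_neg (fun h => hnj (h1.symm.trans h))]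
        split_ifs <;> norm_num
      · by_cases h2 : i.succ = j.castSucc
        · have h3 : i.castSucc ≠ j.castSucc := fun h => hne (h2.trans h.symm)
          rw [if_neg h1, if_pos h2, if_neg h3]
          split_ifs <;> norm_num
        · rw [if_neg h1, if_neg h2]; norm_num
    · unfold dl
      rw [if_pos rfl, if_neg hne, if_neg hne.symm, if_pos rfl]
      have := kap_pos n i
      linarith
  constructor
  · rw [PP_apply, dl, if_neg hne.symm, zero_sub, neg_pos]
    have h2 : ∑ j : Fin n, kap n j * ((dl i.castSucc j.succ - dl i.castSucc j.castSucc) *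
        (dl i.succ j.succ - dl i.succ j.castSucc)) < 0 := by
      refine lt_of_eq_of_lt (Finset.sum_congr rfl fun j _ => ?_) key
      ring
    exact mul_neg_of_pos_of_neg (by have := wt_pos n (i.castSucc : Fin (n+1)); positivity) h2
  · rw [PP_apply, dl, if_neg hne, zero_sub, neg_pos]
    exact mul_neg_of_pos_of_neg (by have := wt_pos n (i.succ : Fin (n+1)); positivity) key

theorem PP_irr {n : ℕ} (x y : Fin (n + 1)) : ∃ k : ℕ, 0 < (PP n ^ k) x y := by
  have htr : ∀ x y z : Fin (n + 1), (∃ k : ℕ, 0 < (PP n ^ k) x y) → (∃ k : ℕ, 0 < (PP n ^ k) y z) →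
      ∃ k : ℕ, 0 < (PP n ^ k) x z := by
    rintro x y z ⟨k, hk⟩ ⟨l, hl⟩
    refine ⟨k + l, ?_⟩
    rw [pow_add, Matrix.mul_apply]
    refine lt_of_lt_of_le (mul_pos hk hl) (Finset.single_le_sum
      (f := fun j => (PP n ^ k) x j * (PP n ^ l) j z) (fun j _ => ?_) (Finset.mem_univ y))
    exact mul_nonneg (pow_nonneg' PP_nonneg k x j) (pow_nonneg' PP_nonneg l j z)
  have h0 : ∀ x : Fin (n + 1), (∃ k : ℕ, 0 < (PP n ^ k) 0 x) ∧ ∃ k : ℕ, 0 < (PP n ^ k) x 0 := by
    intro x
    induction x using Fin.induction with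
    | zero => exact ⟨⟨0, by simp⟩, ⟨0, by simp⟩⟩
    | succ i ih =>
      have h := PP_adj i
      exact ⟨htr _ _ _ ih.1 ⟨1, by simpa using h.1⟩, htr _ _ _ ⟨1, by simpa using h.2⟩ ih.2⟩
  exact htr _ _ _ (h0 x).2 (h0 y).1

theorem PP_chain (n : ℕ) : IsChain (PP n) (pv n) where
  nonneg := PP_nonneg
  row_sum := PP_row
  irreducible := PP_irr
  pi_pos := fun x => div_pos (wt_pos n x) (ZZ_pos n)
  pi_sum := by
    simp only [pv]
    rw [← Finset.sum_div]
    exact div_self (ZZ_pos n).ne'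
  reversible := PP_rev

end EntMLS
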