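import Pool.Agent.W852.MLS.Mix

/-!
# The modified log-Sobolev constant of the chain
-/

namespace EntMLS
open Matrix Finset

theorem log_diff {a b H : ℝ} (ha : 0 < a) (hb : 0 < b) (haH : a ≤ H) (hbH : b ≤ H) :
    (a - b) ^ 2 / H ≤ (a - b) * (Real.log a - Real.log b) := by
  have hH : 0 < H := ha.trans_le haH
  have key : ∀ {a b : ℝ}, 0 < a → 0 < b → a ≤ H → b ≤ a →
      (a - b) ^ 2 / H ≤ (a - b) * (Real.log a - Real.log b) := by
    intro a b ha hb haH hab
    have h1 : 1 - b / a ≤ Real.log a - Real.log b := by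
      have := Real.one_sub_inv_le_log_of_pos (div_pos ha hb)
      rw [inv_div, Real.log_div ha.ne' hb.ne'] at this
      exact this
    have h2 : (a - b) / H ≤ 1 - b / a := by
      have e : 1 - b / a = (a - b) / a := by field_simp
      rw [e]
      exact div_le_div_of_nonneg_left (by linarith) ha haH
    calc (a - b) ^ 2 / H = (a - b) * ((a - b) / H) := by ring
      _ ≤ _ := mul_le_mul_of_nonneg_left (h2.trans h1) (by linarith)
  rcases le_total b a with h | h
  · exact key ha hb haH h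
  · have := key hb ha hbH h
    calc (a - b) ^ 2 / H = (b - a) ^ 2 / H := by ring
      _ ≤ _ := this
      _ = _ := by ring

section general
variable {Ω : Type} [Fintype Ω]

theorem ent_eq {π h : Ω → ℝ} :
    ent π h = ∑ x, π x * (h x * (Real.log (h x) - Real.log (∑ y, π y * h y))) := by
  unfold ent
  rw [Finset.sum_mul, ← Finset.sum_sub_distrib]
  refine Finset.sum_congr rfl fun x _ => by ring

theorem ent_pos {π h : Ω → ℝ} (hπ : ∀ x, 0 < π x) (hs : ∑ x, π x = 1) (hh : ∀ x, 0 < h x)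
    (hne : ∃ x y, h x ≠ h y) : 0 < ent π h := by
  set m := ∑ y, π y * h y with hm
  obtain ⟨x, y, hxy⟩ := hne
  have hmpos : 0 < m := Finset.sum_pos (fun z _ => mul_pos (hπ z) (hh z)) ⟨x, Finset.mem_univ x⟩
  have hz : ∃ z, h z ≠ m := by
    by_contra hc
    push Not at hc
    exact hxy ((hc x).trans (hc y).symm)
  obtain ⟨z, hz⟩ := hz
  rw [ent_eq, ← hm]
  have h0 : ∑ x, π x * (h x - m) = 0 := by
    simp only [mul_sub, Finset.sum_sub_distrib, ← Finset.sum_mul, hs]
    rw [← hm]; ring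
  rw [← h0]
  have hlog : ∀ x, 1 - m / h x ≤ Real.log (h x) - Real.log m := by
    intro x
    have := Real.one_sub_inv_le_log_of_pos (div_pos (hh x) hmpos)
    rw [inv_div, Real.log_div (hh x).ne' hmpos.ne'] at this
    exact this
  refine Finset.sum_lt_sum (fun x _ => ?_) ⟨z, Finset.mem_univ z, ?_⟩
  · refine mul_le_mul_of_nonneg_left ?_ (hπ x).le
    calc h x - m = h x * (1 - m / h x) := by have := (hh x).ne'; field_simp
      _ ≤ _ := mul_le_mul_of_nonneg_left (hlog x) (hh x).le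
  · refine mul_lt_mul_of_pos_left ?_ (hπ z)
    have h1 : Real.log (m / h z) < m / h z - 1 :=
      Real.log_lt_sub_one_of_pos (div_pos hmpos (hh z))
        (fun e => hz ((div_eq_one_iff_eq (hh z).ne').1 e).symm)
    rw [Real.log_div hmpos.ne' (hh z).ne'] at h1
    calc h z - m = h z * (1 - m / h z) := by have := (hh z).ne'; field_simp
      _ < _ := mul_lt_mul_of_pos_left (by linarith) (hh z)

theorem ent_le {π h : Ω → ℝ} (hπ : ∀ x, 0 < π x) (hs : ∑ x, π x = 1) (hh : ∀ x, 0 < h x)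
    {B : ℝ} (hB : ∀ x y, |h x - h y| ≤ B) :
    ent π h ≤ B ^ 2 / (∑ y, π y * h y) := by
  rcases isEmpty_or_nonempty Ω with he | he
  · simp at hs
  set m := ∑ y, π y * h y with hm
  have hmpos : 0 < m := Finset.sum_pos (fun z _ => mul_pos (hπ z) (hh z)) Finset.univ_nonempty
  rw [ent_eq, ← hm]
  have h1 : ∀ x, π x * (h x * (Real.log (h x) - Real.log m)) ≤
      π x * ((h x - m) ^ 2 / m) + π x * (h x - m) := by
    intro x
    rw [← mul_add]
    refine mul_le_mul_of_nonneg_left ?_ (hπ x).le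
    have h2 : Real.log (h x) - Real.log m ≤ h x / m - 1 := by
      rw [← Real.log_div (hh x).ne' hmpos.ne']
      exact Real.log_le_sub_one_of_pos (div_pos (hh x) hmpos)
    calc _ ≤ h x * (h x / m - 1) := mul_le_mul_of_nonneg_left h2 (hh x).le
      _ = _ := by field_simp; ring
  have h0 : ∑ x, π x * (h x - m) = 0 := by
    simp only [mul_sub, Finset.sum_sub_distrib, ← Finset.sum_mul, hs]
    rw [← hm]; ring
  have h3 : ∀ x, |h x - m| ≤ B := by
    intro x
    have e : h x - m = ∑ y, π y * (h x - h y) := by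
      simp only [mul_sub, Finset.sum_sub_distrib, ← Finset.sum_mul, hs]
      rw [← hm]; ring
    rw [e]
    calc _ ≤ ∑ y, |π y * (h x - h y)| := Finset.abs_sum_le_sum_abs _ _
      _ ≤ ∑ y, π y * B := by
        refine Finset.sum_le_sum fun y _ => ?_
        rw [abs_mul, abs_of_pos (hπ y)]
        exact mul_le_mul_of_nonneg_left (hB x y) (hπ y).le
      _ = B := by rw [← Finset.sum_mul, hs, one_mul]
  calc _ ≤ ∑ x, (π x * ((h x - m) ^ 2 / m) + π x * (h x - m)) :=
        Finset.sum_le_sum fun x _ => h1 x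
    _ = ∑ x, π x * ((h x - m) ^ 2 / m) := by rw [Finset.sum_add_distrib, h0, add_zero]
    _ ≤ ∑ x, π x * (B ^ 2 / m) := by
        refine Finset.sum_le_sum fun x _ => mul_le_mul_of_nonneg_left ?_ (hπ x).le
        refine div_le_div_of_nonneg_right ?_ hmpos.le
        rw [← sq_abs]
        exact pow_le_pow_left₀ (abs_nonneg _) (h3 x) 2
    _ = _ := by rw [← Finset.sum_mul, hs, one_mul]

end general

theorem telescope {n : ℕ} (h : Fin (n + 1) → ℝ) (x : Fin (n + 1)) :
    |h x - h 0| ≤ ∑ i : Fin n, |h i.succ - h i.castSucc| := by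
  have key : ∀ x : Fin (n + 1), |h x - h 0| ≤
      ∑ i : Fin n, if (i : ℕ) < x then |h i.succ - h i.castSucc| else 0 := by
    intro x
    induction x using Fin.induction with
    | zero => simp
    | succ i ih =>
      have h1 : ∑ j : Fin n, (if (j : ℕ) < (i.succ : Fin (n + 1)) then
          |h j.succ - h j.castSucc| else 0) =
          (∑ j : Fin n, if (j : ℕ) < (i.castSucc : Fin (n + 1)) then
            |h j.succ - h j.castSucc| else 0) + |h i.succ - h i.castSucc| := by
        have h2 : |h i.succ - h i.castSucc| =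
            ∑ j : Fin n, if j = i then |h j.succ - h j.castSucc| else 0 := by simp
        rw [h2, ← Finset.sum_add_distrib]
        refine Finset.sum_congr rfl fun j _ => ?_
        simp only [Fin.val_succ, Fin.val_castSucc]
        by_cases hj : j = i
        · subst hj; simp
        · have hj' : (j : ℕ) ≠ i := fun e => hj (Fin.ext e)
          rw [if_neg hj, add_zero]
          by_cases h3 : (j : ℕ) < i
          · rw [if_pos h3, if_pos (by omega)]
          · rw [if_neg h3, if_neg (by omega)]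
      rw [h1]
      calc |h i.succ - h 0| = |(h i.castSucc - h 0) + (h i.succ - h i.castSucc)| := by
            congr 1; ring
        _ ≤ |h i.castSucc - h 0| + |h i.succ - h i.castSucc| := abs_add_le _ _
        _ ≤ _ := by linarith
  refine (key x).trans (Finset.sum_le_sum fun i _ => ?_)
  split_ifs
  · exact le_rfl
  · exact abs_nonneg _

theorem kap_ge {n : ℕ} (i : Fin n) : kap n n ≤ kap n i := by
  unfold kap
  refine mul_le_mul_of_nonneg_left ?_ (by positivity)
  exact pow_le_pow_of_le_one (by norm_num) (by norm_num) (by have := i.2; omega)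

/-- A positive lower bound for the constant. -/
theorem ratio_ge {n : ℕ} (hn : 1 ≤ n) (f : Fin (n + 1) → ℝ) (hf : ∃ x y, f x ≠ f y) :
    (ZZ n)⁻¹ * kap n n * (1 / 2) ^ (2 * n + 1) / (4 * n) ≤
      dir (PP n) (pv n) (fun x => Real.exp (f x)) f / ent (pv n) (fun x => Real.exp (f x)) := by
  set h : Fin (n + 1) → ℝ := fun x => Real.exp (f x) with hh
  have hpos : ∀ x, 0 < h x := fun x => Real.exp_pos _
  have hch := PP_chain n
  have hent : 0 < ent (pv n) h := by
    refine ent_pos hch.pi_pos hch.pi_sum hpos ?_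
    obtain ⟨x, y, hxy⟩ := hf
    exact ⟨x, y, fun e => hxy (Real.exp_injective e)⟩
  rw [le_div_iff₀ hent]
  set H := ∑ x, h x with hH
  have hHpos : 0 < H := Finset.sum_pos (fun x _ => hpos x) Finset.univ_nonempty
  have hle : ∀ x, h x ≤ H := fun x =>
    Finset.single_le_sum (fun z _ => (hpos z).le) (Finset.mem_univ x)
  set D := ∑ i : Fin n, (h i.succ - h i.castSucc) ^ 2 with hD
  have hD0 : 0 ≤ D := Finset.sum_nonneg fun i _ => sq_nonneg _
  have hZ := ZZ_pos n
  -- lower bound of the form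
  have h1 : (ZZ n)⁻¹ * (kap n n * (D / H)) ≤ dir (PP n) (pv n) h f := by
    rw [dir_eq]
    refine mul_le_mul_of_nonneg_left ?_ (by positivity)
    rw [hD, Finset.sum_div, Finset.mul_sum]
    refine Finset.sum_le_sum fun i _ => ?_
    have h2 := log_diff (hpos i.succ) (hpos i.castSucc) (hle _) (hle _)
    simp only [hh, Real.log_exp] at h2
    have h3 : 0 ≤ (h i.succ - h i.castSucc) ^ 2 / H := by positivity
    calc kap n n * ((h i.succ - h i.castSucc) ^ 2 / H)
        ≤ kap n i * ((h i.succ - h i.castSucc) ^ 2 / H) :=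
          mul_le_mul_of_nonneg_right (kap_ge i) h3
      _ ≤ _ := mul_le_mul_of_nonneg_left h2 (kap_pos n i).le
  -- upper bound of the entropy
  set S := ∑ i : Fin n, |h i.succ - h i.castSucc| with hS
  have hS0 : 0 ≤ S := Finset.sum_nonneg fun i _ => abs_nonneg _
  have hS2 : S ^ 2 ≤ n * D := by
    have := sq_sum_le_card_mul_sum_sq (s := (Finset.univ : Finset (Fin n)))
      (f := fun i => |h i.succ - h i.castSucc|)
    simpa [sq_abs] using this
  have h4 : ∀ x y, |h x - h y| ≤ 2 * S := by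
    intro x y
    calc |h x - h y| = |(h x - h 0) - (h y - h 0)| := by congr 1; ring
      _ ≤ |h x - h 0| + |h y - h 0| := abs_sub _ _
      _ ≤ _ := by have := telescope h x; have := telescope h y; linarith
  have h5 := ent_le hch.pi_pos hch.pi_sum hpos h4
  have h6 : (1 / 2 : ℝ) ^ (2 * n + 1) * H ≤ ∑ y, pv n y * h y := by
    rw [hH, Finset.mul_sum]
    exact Finset.sum_le_sum fun x _ => mul_le_mul_of_nonneg_right (pv_ge x) (hpos x).le
  have hc : (0:ℝ) < (1 / 2) ^ (2 * n + 1) := by positivity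
  have h7 : ent (pv n) h ≤ 4 * n * D / ((1 / 2 : ℝ) ^ (2 * n + 1) * H) := by
    refine h5.trans ?_
    have h8 : (2 * S) ^ 2 ≤ 4 * n * D := by nlinarith
    calc (2 * S) ^ 2 / (∑ y, pv n y * h y) ≤ (2 * S) ^ 2 / ((1 / 2 : ℝ) ^ (2 * n + 1) * H) :=
          div_le_div_of_nonneg_left (sq_nonneg _) (by positivity) h6
      _ ≤ _ := div_le_div_of_nonneg_right h8 (by positivity)
  have hn' : (0:ℝ) < n := by exact_mod_cast hn
  have hk := kap_pos n n
  calc (ZZ n)⁻¹ * kap n n * (1 / 2) ^ (2 * n + 1) / (4 * n) * ent (pv n) h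
      ≤ (ZZ n)⁻¹ * kap n n * (1 / 2) ^ (2 * n + 1) / (4 * n) *
        (4 * n * D / ((1 / 2 : ℝ) ^ (2 * n + 1) * H)) :=
        mul_le_mul_of_nonneg_left h7 (by positivity)
    _ = (ZZ n)⁻¹ * (kap n n * (D / H)) := by field_simp
    _ ≤ _ := h1

theorem cMLS_pos {n : ℕ} (hn : 1 ≤ n) : 0 < cMLS (PP n) (pv n) := by
  have hn' : (0:ℝ) < n := by exact_mod_cast hn
  have hne : Nonempty {f : Fin (n + 1) → ℝ // ∃ x y, f x ≠ f y} := by
    refine ⟨⟨fun x => (x : ℕ), 0, Fin.last n, ?_⟩⟩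
    simp only [Fin.val_zero, Fin.val_last, Nat.cast_zero]
    exact hn'.ne
  have hk := kap_pos n n
  have hZ := ZZ_pos n
  refine lt_of_lt_of_le ?_ (le_ciInf fun f => ratio_ge hn f.1 f.2)
  positivity

theorem cMLS_le {n : ℕ} (hn : 8 ≤ n) : cMLS (PP n) (pv n) ≤ (9 / 2) * (2 / 3) ^ n / n := by
  have hn' : (8:ℝ) ≤ n := by exact_mod_cast hn
  have hlog4 : Real.log 4 = 2 * Real.log 2 := by
    rw [show (4:ℝ) = 2 ^ 2 by norm_num, Real.log_pow]; norm_num
  have hl2 := Real.log_two_gt_d9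
  have hl3 : Real.log 3 ≤ Real.log 4 := Real.log_le_log (by norm_num) (by norm_num)
  set f : Fin (n + 1) → ℝ := fun x => (x : ℕ) * Real.log 4 with hf
  have hfne : ∃ x y, f x ≠ f y := by
    refine ⟨0, Fin.last n, ?_⟩
    simp only [hf, Fin.val_zero, Fin.val_last, Nat.cast_zero, zero_mul]
    have : 0 < (n:ℝ) * Real.log 4 := by rw [hlog4]; positivity
    exact this.ne
  have hexp : ∀ x : Fin (n + 1), Real.exp (f x) = 4 ^ (x : ℕ) := by
    intro x
    rw [hf]
    simp only
    rw [mul_comm, Real.exp_mul, Real.exp_log (by norm_num), Real.rpow_natCast]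
  have hbdd : BddBelow (Set.range fun f : {f : Fin (n + 1) → ℝ // ∃ x y, f x ≠ f y} =>
      dir (PP n) (pv n) (fun x => Real.exp (f.1 x)) f.1 /
        ent (pv n) (fun x => Real.exp (f.1 x))) := by
    refine ⟨(ZZ n)⁻¹ * kap n n * (1 / 2) ^ (2 * n + 1) / (4 * n), ?_⟩
    rintro _ ⟨g, rfl⟩
    exact ratio_ge (by omega) g.1 g.2
  refine (ciInf_le hbdd ⟨f, hfne⟩).trans ?_
  simp only
  have hch := PP_chain n
  have hent : 0 < ent (pv n) (fun x => Real.exp (f x)) := by
    refine ent_pos hch.pi_pos hch.pi_sum (fun x => Real.exp_pos _) ?_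
    obtain ⟨x, y, hxy⟩ := hfne
    exact ⟨x, y, fun e => hxy (Real.exp_injective e)⟩
  have hZ := ZZ_pos n
  obtain ⟨hZ1, hZ2⟩ := ZZ_bounds n
  have hZ3 : ZZ n ≤ 3 / 2 := by
    have : ((1:ℝ) / 2) ^ n ≤ 1 / 2 := by
      calc ((1:ℝ) / 2) ^ n ≤ (1 / 2) ^ 1 :=
            pow_le_pow_of_le_one (by norm_num) (by norm_num) (by omega)
        _ = 1 / 2 := by norm_num
    linarith
  -- the form
  have hdir : dir (PP n) (pv n) (fun x => Real.exp (f x)) f ≤
      (ZZ n)⁻¹ * (Real.log 4 * ((3 / 2) * (2 / 3) ^ n)) := by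
    rw [dir_eq]
    refine mul_le_mul_of_nonneg_left ?_ (by positivity)
    have h1 : ∀ i : Fin n, kap n i * ((Real.exp (f i.succ) - Real.exp (f i.castSucc)) *
        (f i.succ - f i.castSucc)) =
        (fun j : ℕ => Real.log 4 * ((1 / 2) ^ (n + 1) * (4 / 3) ^ j)) i := by
      intro i
      rw [hexp, hexp]
      simp only [hf, Fin.val_succ, Fin.val_castSucc, kap]
      push_cast
      have e : ((4:ℝ) / 3) ^ (i : ℕ) = 4 ^ (i : ℕ) * (1 / 3) ^ (i : ℕ) := by
        rw [← mul_pow]; norm_num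
      rw [e]
      ring
    rw [Finset.sum_congr rfl fun i _ => h1 i,
      Fin.sum_univ_eq_sum_range (fun j : ℕ => Real.log 4 * ((1 / 2) ^ (n + 1) * (4 / 3) ^ j)) n]
    rw [← Finset.mul_sum, ← Finset.mul_sum]
    have h2 : ∀ m : ℕ, ∑ j ∈ Finset.range m, ((4:ℝ) / 3) ^ j = 3 * ((4 / 3) ^ m - 1) := by
      intro m
      induction m with
      | zero => simp
      | succ m ih => rw [Finset.sum_range_succ, ih]; ring
    rw [h2]
    refine mul_le_mul_of_nonneg_left ?_ (by rw [hlog4]; positivity)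
    have e3 : ((2:ℝ) / 3) ^ n = (1 / 2) ^ n * (4 / 3) ^ n := by rw [← mul_pow]; norm_num
    rw [e3]
    have : (0:ℝ) ≤ (1 / 2) ^ n := by positivity
    calc ((1:ℝ) / 2) ^ (n + 1) * (3 * ((4 / 3) ^ n - 1))
        = (3 / 2) * ((1 / 2) ^ n * (4 / 3) ^ n) - (3 / 2) * (1 / 2) ^ n := by ring
      _ ≤ _ := by linarith
  -- the entropy
  have hm1 : ∑ x, pv n x * Real.exp (f x) ≤ 3 := by
    have h1 : ∑ x, pv n x * Real.exp (f x) = (∑ x : Fin (n + 1), wt n x * 4 ^ (x : ℕ)) / ZZ n := by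
      rw [Finset.sum_div]
      refine Finset.sum_congr rfl fun x _ => ?_
      rw [hexp, pv]; ring
    rw [h1, div_le_iff₀ hZ, Fin.sum_univ_succ]
    have h2 : ∀ i : Fin n, wt n (i.succ : Fin (n + 1)) * 4 ^ ((i.succ : Fin (n + 1)) : ℕ) =
        (fun j : ℕ => (1 / 2) ^ n * (2:ℝ) ^ (j + 1)) i := by
      intro i
      simp only [Fin.val_succ, wt, if_neg (Nat.succ_ne_zero _)]
      have e : ((2:ℝ)) ^ ((i : ℕ) + 1) = (1 / 2) ^ ((i : ℕ) + 1) * 4 ^ ((i : ℕ) + 1) := by
        rw [← mul_pow]; norm_num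
      rw [e, pow_add]; ring
    rw [Finset.sum_congr rfl fun i _ => h2 i,
      Fin.sum_univ_eq_sum_range (fun j : ℕ => (1 / 2) ^ n * (2:ℝ) ^ (j + 1)) n, ← Finset.mul_sum]
    have h3 : ∀ m : ℕ, ∑ j ∈ Finset.range m, (2:ℝ) ^ (j + 1) = 2 * (2 ^ m - 1) := by
      intro m
      induction m with
      | zero => simp
      | succ m ih => rw [Finset.sum_range_succ, ih]; ring
    rw [h3]
    have e4 : ((1:ℝ) / 2) ^ n * 2 ^ n = 1 := by rw [← mul_pow]; norm_num
    have h0 : (0:ℝ) ≤ (1 / 2) ^ n := by positivity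
    simp only [Fin.val_zero, pow_zero, mul_one]
    have hw0 : wt n 0 = 1 := by simp [wt]
    rw [hw0]
    calc 1 + ((1:ℝ) / 2) ^ n * (2 * (2 ^ n - 1)) =
          1 + 2 * ((1 / 2) ^ n * 2 ^ n) - 2 * (1 / 2) ^ n := by ring
      _ ≤ 3 * 1 := by rw [e4]; linarith
      _ ≤ _ := by linarith
  have hmpos : 0 < ∑ x, pv n x * Real.exp (f x) :=
    Finset.sum_pos (fun x _ => mul_pos (hch.pi_pos x) (Real.exp_pos _)) Finset.univ_nonempty
  have hentge : (ZZ n)⁻¹ * (n * Real.log 4) - 3 * Real.log 4 ≤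
      ent (pv n) (fun x => Real.exp (f x)) := by
    unfold ent
    have h1 : (ZZ n)⁻¹ * (n * Real.log 4) ≤
        ∑ x, pv n x * (Real.exp (f x) * Real.log (Real.exp (f x))) := by
      have h2 : pv n (Fin.last n) * (Real.exp (f (Fin.last n)) *
          Real.log (Real.exp (f (Fin.last n)))) ≤
          ∑ x, pv n x * (Real.exp (f x) * Real.log (Real.exp (f x))) := by
        refine Finset.single_le_sum (f := fun x => pv n x * (Real.exp (f x) *
          Real.log (Real.exp (f x)))) (fun x _ => ?_) (Finset.mem_univ _)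
        refine mul_nonneg (hch.pi_pos x).le (mul_nonneg (Real.exp_pos _).le ?_)
        rw [Real.log_exp, hf]
        simp only
        rw [hlog4]; positivity
      refine le_trans (le_of_eq ?_) h2
      rw [Real.log_exp, hexp, pv]
      simp only [hf, Fin.val_last, wt, if_neg (show n ≠ 0 by omega)]
      have e : ((1:ℝ) / 2) ^ (n + n) * 4 ^ n = 1 := by
        rw [← two_mul, pow_mul, ← mul_pow]; norm_num
      calc (ZZ n)⁻¹ * ((n:ℝ) * Real.log 4)
          = (ZZ n)⁻¹ * (((1 / 2) ^ (n + n) * 4 ^ n) * (n * Real.log 4)) := by rw [e, one_mul]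
        _ = _ := by ring
    have h3 : (∑ x, pv n x * Real.exp (f x)) * Real.log (∑ x, pv n x * Real.exp (f x)) ≤
        3 * Real.log 4 := by
      have h4 : Real.log (∑ x, pv n x * Real.exp (f x)) ≤ Real.log 4 :=
        (Real.log_le_log hmpos hm1).trans hl3
      have h5 : 0 ≤ Real.log 4 := by rw [hlog4]; positivity
      calc _ ≤ (∑ x, pv n x * Real.exp (f x)) * Real.log 4 :=
            mul_le_mul_of_nonneg_left h4 hmpos.le
        _ ≤ _ := mul_le_mul_of_nonneg_right hm1 h5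
    linarith
  rw [div_le_iff₀ hent]
  refine hdir.trans ?_
  have hnpos : (0:ℝ) < n := by linarith
  have hrho : (0:ℝ) < (2 / 3) ^ n := by positivity
  have h10 : (9 / 2) * (2 / 3) ^ n / n * ((ZZ n)⁻¹ * (n * Real.log 4) - 3 * Real.log 4) ≤
      (9 / 2) * (2 / 3) ^ n / n * ent (pv n) (fun x => Real.exp (f x)) :=
    mul_le_mul_of_nonneg_left hentge (by positivity)
  refine le_trans ?_ h10
  have hZi : 2 / 3 ≤ (ZZ n)⁻¹ := by
    rw [le_inv_comm₀ (by norm_num) hZ]; linarith
  have h11 : (9 / 2) * (2 / 3) ^ n / n * ((ZZ n)⁻¹ * (n * Real.log 4) - 3 * Real.log 4) =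
      (2 / 3) ^ n * Real.log 4 * ((9 / 2) * (ZZ n)⁻¹ - (27 / 2) / n) := by
    field_simp; ring
  have h12 : (ZZ n)⁻¹ * (Real.log 4 * ((3 / 2) * (2 / 3) ^ n)) =
      (2 / 3) ^ n * Real.log 4 * ((3 / 2) * (ZZ n)⁻¹) := by ring
  rw [h11, h12]
  refine mul_le_mul_of_nonneg_left ?_ (by rw [hlog4]; positivity)
  have h13 : (27 / 2) / (n:ℝ) ≤ 27 / 16 := by
    rw [div_le_iff₀ hnpos]; linarith
  linarith

end EntMLS
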