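import Mathlib

/-!
# Modified log-Sobolev constant and entropic mixing: definitions
-/

namespace EntMLS

variable {Ω : Type} [Fintype Ω] [DecidableEq Ω]

/-- `P` is an irreducible transition matrix, reversible with respect to the positive probability
vector `π`. -/
structure IsChain (P : Matrix Ω Ω ℝ) (π : Ω → ℝ) : Prop where
  nonneg : ∀ x y, 0 ≤ P x y
  row_sum : ∀ x, ∑ y, P x y = 1
  irreducible : ∀ x y, ∃ k : ℕ, 0 < (P ^ k) x y
  pi_pos : ∀ x, 0 < π x
  pi_sum : ∑ x, π x = 1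
  reversible : ∀ x y, π x * P x y = π y * P y x

/-- The heat kernel `exp (-t (I - P))` of the continuous time chain. -/
noncomputable def heat (P : Matrix Ω Ω ℝ) (t : ℝ) : Matrix Ω Ω ℝ :=
  NormedSpace.exp (-(t • (1 - P)))

/-- The Dirichlet form `⟨(I - P) f, g⟩_π`. -/
noncomputable def dir (P : Matrix Ω Ω ℝ) (π : Ω → ℝ) (f g : Ω → ℝ) : ℝ :=
  ∑ x, π x * ((1 - P).mulVec f x * g x)

/-- The entropy `E[f log f] - E[f] log E[f]`. -/
noncomputable def ent (π : Ω → ℝ) (f : Ω → ℝ) : ℝ :=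
  ∑ x, π x * (f x * Real.log (f x)) - (∑ x, π x * f x) * Real.log (∑ x, π x * f x)

/-- The modified log-Sobolev constant: the infimum over non-constant `f`. -/
noncomputable def cMLS (P : Matrix Ω Ω ℝ) (π : Ω → ℝ) : ℝ :=
  ⨅ f : {f : Ω → ℝ // ∃ x y, f x ≠ f y},
    dir P π (fun x => Real.exp (f.1 x)) f.1 / ent π (fun x => Real.exp (f.1 x))

/-- Relative entropy. -/
noncomputable def kl (μ π : Ω → ℝ) : ℝ := ∑ x, μ x * Real.log (μ x / π x)

/-- The entropy mixing time. -/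
noncomputable def tauEnt (P : Matrix Ω Ω ℝ) (π : Ω → ℝ) : ℝ :=
  ⨆ x, sInf {t : ℝ | 0 ≤ t ∧ kl (heat P t x) π ≤ 1 / 2}

/-- The transition matrix killed outside `A`. -/
def killed (P : Matrix Ω Ω ℝ) (A : Finset Ω) : Matrix Ω Ω ℝ :=
  Matrix.of fun x y => if x ∈ A ∧ y ∈ A then P x y else 0

/-- The probability that the continuous time chain from `x` stays in `A` up to time `t`, i.e. that
the hitting time of the complement of `A` is larger than `t`. -/
noncomputable def stay (P : Matrix Ω Ω ℝ) (A : Finset Ω) (t : ℝ) (x : Ω) : ℝ :=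
  if x ∈ A then ∑ y ∈ A, heat (killed P A) t x y else 0

/-- `A` is connected: any two of its points are joined by a path of possible steps inside `A`. -/
def Conn (P : Matrix Ω Ω ℝ) (A : Finset Ω) : Prop :=
  ∀ a ∈ A, ∀ b ∈ A, Relation.ReflTransGen (fun u v => u ∈ A ∧ v ∈ A ∧ 0 < P u v) a b

/-- The entropy hitting-time parameter with constant `Cent`. -/
noncomputable def rhoEnt (P : Matrix Ω Ω ℝ) (π : Ω → ℝ) (Cent : ℝ) : ℝ :=
  ⨆ x, sInf {t : ℝ | 0 ≤ t ∧ ∀ A : Finset Ω, A.Nonempty → Conn P A → ∑ a ∈ A, π a ≤ 1 / 2 →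
    stay P A t x ≤ min (Cent / |Real.log (∑ a ∈ A, π a)|) (99 / 100)}

end EntMLS
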