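import Pool.Agent.W852.MLS.Defs

/-!
# Heat kernels of finite chains
-/

namespace EntMLS
open Matrix

variable {Ω : Type} [Fintype Ω] [DecidableEq Ω]

theorem heat_eq (P : Matrix Ω Ω ℝ) (t : ℝ) :
    heat P t = Real.exp (-t) • NormedSpace.exp (t • P) := by
  unfold heat
  have h1 : -(t • (1 - P)) = t • P + (-t) • (1 : Matrix Ω Ω ℝ) := by
    rw [smul_sub]; module
  rw [h1, Matrix.exp_add_of_commute]
  · have h2 : NormedSpace.exp ((-t) • (1 : Matrix Ω Ω ℝ)) = Real.exp (-t) • 1 := by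
      have : (-t) • (1 : Matrix Ω Ω ℝ) = Matrix.diagonal (fun _ => -t) := by
        ext i j; simp [Matrix.diagonal_apply, Matrix.one_apply]
      rw [this, Matrix.exp_diagonal]
      ext i j
      simp [Matrix.diagonal_apply, Matrix.one_apply, Real.exp_eq_exp_ℝ, Pi.exp_def]
    rw [h2]; simp
  · exact (Commute.one_right _).smul_right _ |>.smul_left _

theorem exp_hasSum (A : Matrix Ω Ω ℝ) :
    HasSum (fun k : ℕ => ((k.factorial : ℝ)⁻¹) • A ^ k) (NormedSpace.exp A) := by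
  let _ : NormedRing (Matrix Ω Ω ℝ) := Matrix.linftyOpNormedRing
  let _ : NormedAlgebra ℝ (Matrix Ω Ω ℝ) := Matrix.linftyOpNormedAlgebra
  exact NormedSpace.exp_series_hasSum_exp' (𝕂 := ℝ) A

theorem heat_hasSum (P : Matrix Ω Ω ℝ) (t : ℝ) (W : Ω → ℝ) (x : Ω) :
    HasSum (fun k : ℕ => Real.exp (-t) * (t ^ k / (k.factorial : ℝ)) * ((P ^ k).mulVec W x))
      ((heat P t).mulVec W x) := by
  have h := exp_hasSum (t • P)
  have h2 : HasSum (fun k : ℕ => ((((k.factorial : ℝ)⁻¹) • (t • P) ^ k).mulVec W x))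
      ((NormedSpace.exp (t • P)).mulVec W x) := by
    let φ : Matrix Ω Ω ℝ →+ ℝ :=
      { toFun := fun M => M.mulVec W x
        map_zero' := by simp
        map_add' := fun A B => by simp [Matrix.add_mulVec] }
    have hφ : Continuous φ := by
      show Continuous fun M : Matrix Ω Ω ℝ => M.mulVec W x
      simp only [Matrix.mulVec, dotProduct]
      fun_prop
    exact h.map φ hφ
  have h3 := h2.mul_left (Real.exp (-t))
  rw [heat_eq, Matrix.smul_mulVec]
  have e : (fun k : ℕ => Real.exp (-t) * (t ^ k / (k.factorial : ℝ)) * ((P ^ k).mulVec W x)) =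
      fun k : ℕ => Real.exp (-t) * ((((k.factorial : ℝ)⁻¹) • (t • P) ^ k).mulVec W x) := by
    funext k
    rw [smul_pow, Matrix.smul_mulVec, Matrix.smul_mulVec]
    simp only [Pi.smul_apply, smul_eq_mul]
    ring
  rw [e]
  exact h3

theorem exp_hasSum' (t r : ℝ) :
    HasSum (fun k : ℕ => Real.exp (-t) * (t ^ k / (k.factorial : ℝ)) * r ^ k)
      (Real.exp (-((1 - r) * t))) := by
  have h := (NormedSpace.expSeries_div_hasSum_exp (t * r)).mul_left (Real.exp (-t))
  rw [← Real.exp_eq_exp_ℝ, ← Real.exp_add] at h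
  have e : (fun k : ℕ => Real.exp (-t) * (t ^ k / (k.factorial : ℝ)) * r ^ k) =
      fun k : ℕ => Real.exp (-t) * ((t * r) ^ k / (k.factorial : ℝ)) := by
    funext k
    rw [mul_pow]; ring
  have e2 : -((1 - r) * t) = -t + t * r := by ring
  rw [e, e2]
  exact h

/-- Entries of powers are nonnegative. -/
theorem pow_nonneg' {P : Matrix Ω Ω ℝ} (hP : ∀ x y, 0 ≤ P x y) : ∀ (k : ℕ) (x y : Ω),
    0 ≤ (P ^ k) x y := by
  intro k
  induction k with
  | zero =>
    intro x y
    rw [pow_zero, Matrix.one_apply]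
    split_ifs <;> norm_num
  | succ k ih =>
    intro x y
    rw [pow_succ, Matrix.mul_apply]
    exact Finset.sum_nonneg fun z _ => mul_nonneg (ih x z) (hP z y)

omit [DecidableEq Ω] in
theorem mulVec_mono {M : Matrix Ω Ω ℝ} (hM : ∀ x y, 0 ≤ M x y) {f g : Ω → ℝ}
    (h : ∀ x, f x ≤ g x) (x : Ω) : M.mulVec f x ≤ M.mulVec g x := by
  simp only [Matrix.mulVec, dotProduct]
  exact Finset.sum_le_sum fun y _ => mul_le_mul_of_nonneg_left (h y) (hM x y)

theorem pow_one_le {P : Matrix Ω Ω ℝ} (hP : ∀ x y, 0 ≤ P x y) (hr : ∀ x, ∑ y, P x y ≤ 1) :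
    ∀ (k : ℕ) (x : Ω), (P ^ k).mulVec (fun _ => 1) x ≤ 1 := by
  intro k
  induction k with
  | zero => intro x; simp
  | succ k ih =>
    intro x
    rw [pow_succ, ← Matrix.mulVec_mulVec]
    refine le_trans (mulVec_mono (pow_nonneg' hP k) (g := fun _ => 1) (fun y => ?_) x) (ih x)
    simpa [Matrix.mulVec, dotProduct] using hr y

theorem pow_le {P : Matrix Ω Ω ℝ} (hP : ∀ x y, 0 ≤ P x y) (hr : ∀ x, ∑ y, P x y ≤ 1)
    {V : Ω → ℝ} {r b : ℝ} (hr0 : 0 ≤ r) (hr1 : r < 1) (hb : 0 ≤ b)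
    (h : ∀ x, P.mulVec V x ≤ r * V x + b) :
    ∀ (k : ℕ) (x : Ω), (P ^ k).mulVec V x ≤ r ^ k * V x + b / (1 - r) := by
  have h1r : 0 < 1 - r := by linarith
  intro k
  induction k with
  | zero =>
    intro x
    have : 0 ≤ b / (1 - r) := div_nonneg hb h1r.le
    simpa using this
  | succ k ih =>
    intro x
    rw [pow_succ, ← Matrix.mulVec_mulVec]
    have h1 := mulVec_mono (pow_nonneg' hP k) h x
    have h2 : (P ^ k).mulVec (fun y => r * V y + b) x =
        r * (P ^ k).mulVec V x + b * (P ^ k).mulVec (fun _ => 1) x := by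
      simp only [Matrix.mulVec, dotProduct, Finset.mul_sum, ← Finset.sum_add_distrib]
      refine Finset.sum_congr rfl fun y _ => by ring
    rw [h2] at h1
    have h3 := mul_le_mul_of_nonneg_left (ih x) hr0
    have h4 := mul_le_mul_of_nonneg_left (pow_one_le hP hr k x) hb
    have h5 : r * (b / (1 - r)) + b = b / (1 - r) := by
      field_simp; ring
    calc _ ≤ r * (r ^ k * V x + b / (1 - r)) + b * 1 := by linarith
      _ = r ^ (k + 1) * V x + (r * (b / (1 - r)) + b) := by ring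
      _ = _ := by rw [h5]

theorem heat_le {P : Matrix Ω Ω ℝ} (hP : ∀ x y, 0 ≤ P x y) (hr : ∀ x, ∑ y, P x y ≤ 1)
    {V : Ω → ℝ} {r b : ℝ} (hr0 : 0 ≤ r) (hr1 : r < 1) (hb : 0 ≤ b)
    (h : ∀ x, P.mulVec V x ≤ r * V x + b) {t : ℝ} (ht : 0 ≤ t) (x : Ω) :
    (heat P t).mulVec V x ≤ V x * Real.exp (-((1 - r) * t)) + b / (1 - r) := by
  have h1 := heat_hasSum P t V x
  have h2 := ((exp_hasSum' t r).mul_left (V x)).add ((exp_hasSum' t 1).mul_left (b / (1 - r)))
  have h3 : V x * Real.exp (-((1 - r) * t)) + b / (1 - r) * Real.exp (-((1 - 1) * t)) =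
      V x * Real.exp (-((1 - r) * t)) + b / (1 - r) := by simp
  rw [← h3]
  refine hasSum_le (fun k => ?_) h1 h2
  have h4 := pow_le hP hr hr0 hr1 hb h k x
  have h5 : 0 ≤ Real.exp (-t) * (t ^ k / (k.factorial : ℝ)) := by positivity
  calc _ ≤ Real.exp (-t) * (t ^ k / (k.factorial : ℝ)) * (r ^ k * V x + b / (1 - r)) :=
        mul_le_mul_of_nonneg_left h4 h5
    _ = _ := by ring

theorem heat_nonneg {P : Matrix Ω Ω ℝ} (hP : ∀ x y, 0 ≤ P x y) {t : ℝ} (ht : 0 ≤ t) (x y : Ω) :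
    0 ≤ heat P t x y := by
  have h := heat_hasSum P t (Pi.single y 1) x
  simp only [Matrix.mulVec_single, MulOpposite.op_one, one_smul] at h
  refine h.nonneg fun k => ?_
  have h5 : 0 ≤ Real.exp (-t) * (t ^ k / (k.factorial : ℝ)) := by positivity
  exact mul_nonneg h5 (pow_nonneg' hP k x y)

theorem heat_row_sum {P : Matrix Ω Ω ℝ} (hr : ∀ x, ∑ y, P x y = 1) (t : ℝ) (x : Ω) :
    ∑ y, heat P t x y = 1 := by
  have h0 : ∀ k : ℕ, (P ^ k).mulVec (fun _ => 1) = fun _ => (1 : ℝ) := by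
    intro k
    induction k with
    | zero => simp
    | succ k ih =>
      rw [pow_succ, ← Matrix.mulVec_mulVec]
      have : P.mulVec (fun _ => 1) = fun _ => (1 : ℝ) := by
        ext x; simpa [Matrix.mulVec, dotProduct] using hr x
      rw [this, ih]
  have h := heat_hasSum P t (fun _ => 1) x
  simp only [h0] at h
  have h2 := exp_hasSum' t 1
  simp only [one_pow] at h2
  have h3 := h.unique h2
  have h4 : (heat P t).mulVec (fun _ => 1) x = ∑ y, heat P t x y := by
    simp [Matrix.mulVec, dotProduct]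
  rw [← h4, h3]; simp

end EntMLS
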