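import Pool.Agent.W852.MLS.Chain

/-!
# Mixing and hitting estimates for the chain
-/

namespace EntMLS
open Matrix Finset

theorem ZZ_bounds (n : ℕ) : 1 ≤ ZZ n ∧ ZZ n ≤ 1 + (1 / 2) ^ n := by
  have h1 : ZZ n = 1 + ∑ i ∈ Finset.range n, (1 / 2 : ℝ) ^ (n + (i + 1)) := by
    rw [ZZ, Fin.sum_univ_succ, ← Fin.sum_univ_eq_sum_range]
    simp [wt]
  have h2 : ∀ m : ℕ, ∑ i ∈ Finset.range m, (1 / 2 : ℝ) ^ (n + (i + 1)) =
      (1 / 2) ^ n * (1 - (1 / 2) ^ m) := by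
    intro m
    induction m with
    | zero => simp
    | succ m ih => rw [Finset.sum_range_succ, ih]; ring
  rw [h1, h2]
  have h3 : (0:ℝ) ≤ (1 / 2) ^ n := by positivity
  have h4 : ((1:ℝ) / 2) ^ n ≤ 1 := pow_le_one₀ (by norm_num) (by norm_num)
  constructor <;> nlinarith

/-- Lyapunov function. -/
noncomputable def VV (n j : ℕ) : ℝ := if j = 0 then 0 else 1 + 3 * (2 / 3) ^ n * (3 / 2) ^ j

theorem VV_nonneg (n j : ℕ) : 0 ≤ VV n j := by
  unfold VV; split_ifs <;> positivity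

theorem VV_one_le (n j : ℕ) (hj : j ≠ 0) : 1 ≤ VV n j := by
  unfold VV; rw [if_neg hj]
  have : (0:ℝ) ≤ 3 * (2 / 3) ^ n * (3 / 2) ^ j := by positivity
  linarith

theorem rho_mul (n j : ℕ) (h : j ≤ n) : ((2:ℝ) / 3) ^ n * (3 / 2) ^ j ≤ 1 := by
  obtain ⟨k, rfl⟩ := Nat.exists_eq_add_of_le h
  rw [pow_add, mul_right_comm, ← mul_pow]
  norm_num
  exact pow_le_one₀ (by norm_num) (by norm_num)

theorem VV_le (n j : ℕ) (h : j ≤ n) : VV n j ≤ 4 := by
  unfold VV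
  split_ifs
  · norm_num
  · have := rho_mul n j h
    nlinarith

theorem VV_step (n j : ℕ) : ((2:ℝ) / 3) ^ n * (3 / 2) ^ (j + 1) ≤ VV n (j + 1) - VV n j := by
  unfold VV
  rw [if_neg (by omega)]
  by_cases hj : j = 0
  · subst hj
    rw [if_pos rfl]
    have : (0:ℝ) ≤ (2 / 3) ^ n * (3 / 2) ^ (0 + 1) := by positivity
    linarith
  · rw [if_neg hj]
    have : 1 + 3 * ((2:ℝ) / 3) ^ n * (3 / 2) ^ (j + 1) - (1 + 3 * (2 / 3) ^ n * (3 / 2) ^ j) =
      (2 / 3) ^ n * (3 / 2) ^ (j + 1) := by ring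
    rw [this]

theorem VV_step2 (n j : ℕ) : VV n (j + 1 + 1) - VV n (j + 1) =
    (3 / 2) * (((2:ℝ) / 3) ^ n * (3 / 2) ^ (j + 1)) := by
  unfold VV
  rw [if_neg (by omega), if_neg (by omega)]
  ring

theorem PP_mulVec {n : ℕ} (f : Fin (n + 1) → ℝ) (x : Fin (n + 1)) :
    (PP n).mulVec f x = f x - (lap n).mulVec f x := by
  rw [PP, Matrix.sub_mulVec, Matrix.one_mulVec]; rfl

theorem drift_pos {n : ℕ} (x : Fin (n + 1)) (hx : (x : ℕ) ≠ 0) :
    (PP n).mulVec (fun y => VV n y) x ≤ (1 - (2 / 3) ^ n / 16) * VV n x := by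
  rw [PP_mulVec, lap_mulVec, if_neg hx]
  obtain ⟨j, hj⟩ : ∃ j, (x : ℕ) = j + 1 := ⟨x - 1, by omega⟩
  rw [hj, Nat.add_sub_cancel]
  set A : ℝ := (2 / 3) ^ n * (3 / 2) ^ (j + 1) with hA
  have hA0 : 0 ≤ A := by positivity
  have h1 := VV_step n j
  rw [← hA] at h1
  have h2 := VV_step2 n j
  rw [← hA] at h2
  have h3 : (if j + 1 < n then kap n (j + 1) * (VV n (j + 1 + 1) - VV n (j + 1)) else 0) ≤
      kap n j * (A / 2) := by
    have hk : kap n (j + 1) = kap n j / 3 := by unfold kap; ring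
    rw [h2, hk]
    have := kap_pos n j
    split_ifs
    · refine le_of_eq ?_; ring
    · positivity
  have h4 : kap n j * A ≤ kap n j * (VV n (j + 1) - VV n j) :=
    mul_le_mul_of_nonneg_left h1 (kap_pos n j).le
  have h5 : 1 / wt n (j + 1) * (kap n j * (A / 2)) = (2 / 3) ^ n / 4 := by
    rw [wt, if_neg (by omega), kap, hA]
    have e1 : ((1:ℝ) / 2) ^ (n + (j + 1)) = (1 / 2) ^ (n + 1) * (1 / 2) ^ j := by ring
    have e2 : ((2:ℝ) / 3) ^ n * (3 / 2) ^ (j + 1) = (2 / 3) ^ n * ((3 / 2) ^ j * (3 / 2)) := by ring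
    have e3 : ((1:ℝ) / 3) ^ (j + 1) = (1 / 3) ^ j * (1 / 3) := by ring
    have e4 : ((1:ℝ) / 3) ^ j * (3 / 2) ^ j = (1 / 2) ^ j := by
      rw [← mul_pow]; norm_num
    rw [e1, e2, e3]
    have hne : ((1:ℝ) / 2) ^ (n + 1) * (1 / 2) ^ j ≠ 0 := by positivity
    rw [one_div, inv_mul_eq_iff_eq_mul₀ hne]
    calc _ = ((1:ℝ) / 2) ^ (n + 1) * (2 / 3) ^ n * ((1 / 3) ^ j * (3 / 2) ^ j) / 4 := by ring
      _ = _ := by rw [e4]; ring
  have h6 : (2 / 3) ^ n / 4 ≤ 1 / wt n (j + 1) * (kap n j * (VV n (j + 1) - VV n j) -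
      (if j + 1 < n then kap n (j + 1) * (VV n (j + 1 + 1) - VV n (j + 1)) else 0)) := by
    rw [← h5]
    refine mul_le_mul_of_nonneg_left ?_ (by have := wt_pos n (j + 1); positivity)
    linarith
  have h7 : VV n (j + 1) ≤ 4 := VV_le n (j + 1) (by have := x.2; omega)
  have h8 : (0:ℝ) ≤ (2 / 3) ^ n := by positivity
  nlinarith

theorem drift {n : ℕ} (hn : 1 ≤ n) (x : Fin (n + 1)) :
    (PP n).mulVec (fun y => VV n y) x ≤ (1 - (2 / 3) ^ n / 16) * VV n x + (1 / 2) ^ n := by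
  by_cases hx : (x : ℕ) = 0
  · rw [PP_mulVec, lap_mulVec, if_pos hx, hx, if_pos (by omega)]
    have h0 : VV n 0 = 0 := by simp [VV]
    have h1 : VV n (0 + 1) ≤ 4 := VV_le n 1 hn
    have hw : wt n 0 = 1 := by simp [wt]
    have hk : kap n 0 = (1 / 2) ^ n / 6 := by unfold kap; ring
    rw [h0, hw, hk]
    have h8 : (0:ℝ) ≤ (1 / 2) ^ n := by positivity
    nlinarith
  · have h := drift_pos x hx
    have h8 : (0:ℝ) ≤ (1 / 2) ^ n := by positivity
    linarith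

theorem rate_bounds (n : ℕ) : 0 ≤ 1 - ((2:ℝ) / 3) ^ n / 16 ∧ 1 - ((2:ℝ) / 3) ^ n / 16 < 1 := by
  have h1 : (0:ℝ) < (2 / 3) ^ n := by positivity
  have h2 : ((2:ℝ) / 3) ^ n ≤ 1 := pow_le_one₀ (by norm_num) (by norm_num)
  constructor <;> linarith

/-- Mass outside `0` at the time `16 l (3/2)^n`. -/
theorem heat_out {n : ℕ} (hn : 1 ≤ n) {l : ℝ} (hl : 0 ≤ l) (x : Fin (n + 1)) :
    ∑ y ∈ Finset.univ.filter (fun y : Fin (n + 1) => y ≠ 0), heat (PP n) (16 * l * (3 / 2) ^ n) x y ≤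
      4 * Real.exp (-l) + 16 * (3 / 4) ^ n := by
  have ht : 0 ≤ 16 * l * ((3:ℝ) / 2) ^ n := by positivity
  have h1 := heat_le (P := PP n) PP_nonneg (fun x => (PP_row x).le) (rate_bounds n).1
    (rate_bounds n).2 (b := (1 / 2) ^ n) (by positivity) (fun x => drift hn x) ht x
  have e1 : (1 - (1 - ((2:ℝ) / 3) ^ n / 16)) * (16 * l * (3 / 2) ^ n) = l := by
    have : ((2:ℝ) / 3) ^ n * (3 / 2) ^ n = 1 := by rw [← mul_pow]; norm_num
    calc _ = l * (((2:ℝ) / 3) ^ n * (3 / 2) ^ n) := by ring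
      _ = l := by rw [this, mul_one]
  have e2 : ((1:ℝ) / 2) ^ n / (1 - (1 - (2 / 3) ^ n / 16)) = 16 * (3 / 4) ^ n := by
    have h : ((2:ℝ) / 3) ^ n ≠ 0 := by positivity
    have h' : (3 / 4 : ℝ) ^ n * (2 / 3) ^ n = (1 / 2) ^ n := by rw [← mul_pow]; norm_num
    rw [sub_sub_cancel, div_eq_iff (by positivity)]
    calc _ = (1 / 2 : ℝ) ^ n := rfl
      _ = (3 / 4 : ℝ) ^ n * (2 / 3) ^ n := h'.symm
      _ = _ := by ring
  rw [e1, e2] at h1
  have h2 : ∑ y ∈ Finset.univ.filter (fun y : Fin (n + 1) => y ≠ 0),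
      heat (PP n) (16 * l * (3 / 2) ^ n) x y ≤
      (heat (PP n) (16 * l * (3 / 2) ^ n)).mulVec (fun y => VV n y) x := by
    rw [Finset.sum_filter]
    simp only [Matrix.mulVec, dotProduct]
    refine Finset.sum_le_sum fun y _ => ?_
    have h0 := heat_nonneg (P := PP n) PP_nonneg ht x y
    by_cases hy : y = 0
    · rw [if_neg (by simpa using hy)]
      exact mul_nonneg h0 (VV_nonneg n y)
    · rw [if_pos hy]
      exact le_mul_of_one_le_right h0 (VV_one_le n y (fun h => hy (Fin.ext h)))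
  have h3 : VV n x ≤ 4 := VV_le n x (by have := x.2; omega)
  have h4 : VV n x * Real.exp (-l) ≤ 4 * Real.exp (-l) :=
    mul_le_mul_of_nonneg_right h3 (Real.exp_pos _).le
  linarith

theorem wt_ge {n : ℕ} (x : Fin (n + 1)) : (1 / 2 : ℝ) ^ (2 * n) ≤ wt n x := by
  unfold wt
  split_ifs
  · exact pow_le_one₀ (by norm_num) (by norm_num)
  · exact pow_le_pow_of_le_one (by norm_num) (by norm_num) (by have := x.2; omega)

theorem pv_ge {n : ℕ} (x : Fin (n + 1)) : (1 / 2 : ℝ) ^ (2 * n + 1) ≤ pv n x := by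
  have hZ := ZZ_bounds n
  have h4 : ((1:ℝ) / 2) ^ n ≤ 1 := pow_le_one₀ (by norm_num) (by norm_num)
  have h1 := wt_ge x
  rw [pv, le_div_iff₀ (ZZ_pos n)]
  have h0 : (0:ℝ) ≤ (1 / 2) ^ (2 * n) := by positivity
  calc ((1:ℝ) / 2) ^ (2 * n + 1) * ZZ n ≤ (1 / 2) ^ (2 * n + 1) * 2 := by
        refine mul_le_mul_of_nonneg_left (by linarith) (by positivity)
    _ = (1 / 2) ^ (2 * n) := by ring
    _ ≤ _ := h1

theorem log_pv {s : ℝ} {n : ℕ} (h : (1 / 2 : ℝ) ^ (2 * n + 1) ≤ s) :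
    -Real.log s ≤ 2 * n + 1 := by
  have h1 : Real.log ((1 / 2 : ℝ) ^ (2 * n + 1)) ≤ Real.log s :=
    Real.log_le_log (by positivity) h
  rw [Real.log_pow] at h1
  have h2 : Real.log (1 / 2) = - Real.log 2 := by rw [one_div, Real.log_inv]
  rw [h2] at h1
  have h3 : Real.log 2 ≤ 1 := by have := Real.log_two_lt_d9; linarith
  have h4 : (0:ℝ) ≤ 2 * n + 1 := by positivity
  push_cast at h1
  nlinarith

theorem kl_le {n : ℕ} (hn : 1 ≤ n) {l : ℝ} (hl : 0 ≤ l) (x : Fin (n + 1)) :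
    kl (heat (PP n) (16 * l * (3 / 2) ^ n) x) (pv n) ≤
      (1 / 2) ^ n + (4 * Real.exp (-l) + 16 * (3 / 4) ^ n) * (2 * n + 1) := by
  have ht : 0 ≤ 16 * l * ((3:ℝ) / 2) ^ n := by positivity
  set H := heat (PP n) (16 * l * (3 / 2) ^ n) x with hH
  have h0 : ∀ y, 0 ≤ H y := fun y => heat_nonneg (P := PP n) PP_nonneg ht x y
  have hs : ∑ y, H y = 1 := heat_row_sum PP_row _ x
  have h1 : ∀ y, H y ≤ 1 := by
    intro y
    rw [← hs]
    exact Finset.single_le_sum (fun z _ => h0 z) (Finset.mem_univ y)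
  have hp : ∀ y, 0 < pv n y := (PP_chain n).pi_pos
  have hterm : ∀ y, H y * Real.log (H y / pv n y) ≤ H y * (- Real.log (pv n y)) := by
    intro y
    rcases (h0 y).eq_or_lt with h | h
    · rw [← h]; simp
    · rw [Real.log_div h.ne' (hp y).ne', sub_eq_add_neg, mul_add]
      have : H y * Real.log (H y) ≤ 0 :=
        mul_nonpos_of_nonneg_of_nonpos (h0 y) (Real.log_nonpos (h0 y) (h1 y))
      linarith
  have h2 : ∀ y, H y * (- Real.log (pv n y)) ≤
      (if y = 0 then (1 / 2) ^ n else 0) + (if y ≠ 0 then H y else 0) * (2 * n + 1) := by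
    intro y
    by_cases hy : y = 0
    · subst hy
      rw [if_pos rfl, if_neg (by simp), zero_mul, add_zero]
      have e : - Real.log (pv n 0) = Real.log (ZZ n) := by
        rw [pv, Real.log_div (wt_pos n _).ne' (ZZ_pos n).ne']
        simp [wt]
      rw [e]
      have hZ := ZZ_bounds n
      have h3 : Real.log (ZZ n) ≤ (1 / 2) ^ n := by
        have := Real.log_le_sub_one_of_pos (ZZ_pos n)
        linarith
      have h4 : 0 ≤ Real.log (ZZ n) := Real.log_nonneg hZ.1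
      calc H 0 * Real.log (ZZ n) ≤ 1 * Real.log (ZZ n) :=
            mul_le_mul_of_nonneg_right (h1 0) h4
        _ ≤ _ := by linarith
    · rw [if_neg hy, if_pos hy, zero_add]
      exact mul_le_mul_of_nonneg_left (log_pv (pv_ge y)) (h0 y)
  have h3 : kl H (pv n) ≤ ∑ y, ((if y = 0 then ((1:ℝ) / 2) ^ n else 0) +
      (if y ≠ 0 then H y else 0) * (2 * n + 1)) :=
    Finset.sum_le_sum fun y _ => (hterm y).trans (h2 y)
  have h4 : ∑ y : Fin (n + 1), (if y = 0 then ((1:ℝ) / 2) ^ n else 0) = (1 / 2) ^ n := by simp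
  rw [Finset.sum_add_distrib, ← Finset.sum_mul, h4, ← Finset.sum_filter] at h3
  refine h3.trans ?_
  have h5 := heat_out hn hl x
  have h6 : (0:ℝ) ≤ 2 * n + 1 := by positivity
  exact add_le_add le_rfl (mul_le_mul_of_nonneg_right h5 h6)

theorem zero_notMem {n : ℕ} (hn : 1 ≤ n) {A : Finset (Fin (n + 1))}
    (hA : ∑ a ∈ A, pv n a ≤ 1 / 2) : (0 : Fin (n + 1)) ∉ A := by
  intro h
  have h1 : pv n 0 ≤ ∑ a ∈ A, pv n a :=
    Finset.single_le_sum (fun z _ => ((PP_chain n).pi_pos z).le) h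
  have hZ := ZZ_bounds n
  have h4 : ((1:ℝ) / 2) ^ n ≤ 1 / 2 := by
    calc ((1:ℝ) / 2) ^ n ≤ (1 / 2) ^ 1 := pow_le_pow_of_le_one (by norm_num) (by norm_num) hn
      _ = 1 / 2 := by norm_num
  have h5 : 1 / 2 < pv n 0 := by
    rw [pv, lt_div_iff₀ (ZZ_pos n)]
    simp only [wt, Fin.val_zero, if_true]
    linarith
  linarith

theorem stay_le {n : ℕ} (hn : 1 ≤ n) {l : ℝ} (hl : 0 ≤ l) {A : Finset (Fin (n + 1))}
    (hA : ∑ a ∈ A, pv n a ≤ 1 / 2) (x : Fin (n + 1)) :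
    stay (PP n) A (16 * l * (3 / 2) ^ n) x ≤ 4 * Real.exp (-l) := by
  have ht : 0 ≤ 16 * l * ((3:ℝ) / 2) ^ n := by positivity
  have h0A := zero_notMem hn hA
  unfold stay
  split_ifs with hx
  swap
  · positivity
  have hk : ∀ x y, 0 ≤ killed (PP n) A x y := by
    intro x y
    simp only [killed, Matrix.of_apply]
    split_ifs
    · exact PP_nonneg x y
    · exact le_rfl
  have hkP : ∀ x y, killed (PP n) A x y ≤ PP n x y := by
    intro x y
    simp only [killed, Matrix.of_apply]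
    split_ifs
    · exact le_rfl
    · exact PP_nonneg x y
  have hrow : ∀ x, ∑ y, killed (PP n) A x y ≤ 1 := by
    intro x
    rw [← PP_row x]
    exact Finset.sum_le_sum fun y _ => hkP x y
  have hdr : ∀ x, (killed (PP n) A).mulVec (fun y => VV n y) x ≤
      (1 - (2 / 3) ^ n / 16) * VV n x + 0 := by
    intro x
    rw [add_zero]
    by_cases hxA : x ∈ A
    · have hx0 : (x : ℕ) ≠ 0 := fun h => h0A ((Fin.ext h : x = 0) ▸ hxA)
      refine le_trans ?_ (drift_pos x hx0)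
      simp only [Matrix.mulVec, dotProduct]
      exact Finset.sum_le_sum fun y _ => mul_le_mul_of_nonneg_right (hkP x y) (VV_nonneg n y)
    · have : (killed (PP n) A).mulVec (fun y => VV n y) x = 0 := by
        simp only [Matrix.mulVec, dotProduct, killed, Matrix.of_apply]
        refine Finset.sum_eq_zero fun y _ => ?_
        rw [if_neg (fun h => hxA h.1), zero_mul]
      rw [this]
      exact mul_nonneg (rate_bounds n).1 (VV_nonneg n x)
  have h1 := heat_le hk hrow (rate_bounds n).1 (rate_bounds n).2 le_rfl hdr ht x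
  have e1 : (1 - (1 - ((2:ℝ) / 3) ^ n / 16)) * (16 * l * (3 / 2) ^ n) = l := by
    have : ((2:ℝ) / 3) ^ n * (3 / 2) ^ n = 1 := by rw [← mul_pow]; norm_num
    calc _ = l * (((2:ℝ) / 3) ^ n * (3 / 2) ^ n) := by ring
      _ = l := by rw [this, mul_one]
  rw [e1, zero_div, add_zero] at h1
  have h3 : VV n x ≤ 4 := VV_le n x (by have := x.2; omega)
  have h4 : VV n x * Real.exp (-l) ≤ 4 * Real.exp (-l) :=
    mul_le_mul_of_nonneg_right h3 (Real.exp_pos _).le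
  refine le_trans ?_ (h1.trans h4)
  simp only [Matrix.mulVec, dotProduct]
  refine le_trans ?_ (Finset.sum_le_sum_of_subset_of_nonneg (Finset.subset_univ A)
    (fun y _ _ => mul_nonneg (heat_nonneg hk ht x y) (VV_nonneg n y)))
  refine Finset.sum_le_sum fun y hy => ?_
  exact le_mul_of_one_le_right (heat_nonneg hk ht x y)
    (VV_one_le n y (fun h => h0A ((Fin.ext h : y = 0) ▸ hy)))

end EntMLS
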